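import Mathlib

/-!
Compact metric graphs, their path metric, the Laplacian with standard (continuity and Kirchhoff)
vertex conditions, second eigenfunctions and the set `M` of hot spots.
-/

open Set

namespace Pool.Agent.Lib.MP_630a53_an

/-- A metric graph with finitely many vertices and edges; loops and multiple edges are allowed.
The edge `e` is the interval `[0, len e]`, with `0` glued to `src e` and `len e` glued to `tgt e`. -/
structure MetricGraph : Type 1 where
  V : Type
  E : Type
  [finV : Fintype V]
  [finE : Fintype E]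
  src : E → V
  tgt : E → V
  len : E → ℝ
  len_pos : ∀ e, 0 < len e

attribute [instance] MetricGraph.finV MetricGraph.finE

namespace MetricGraph

/-- The points of the graph: vertices, and interior points of edges. -/
def Pt (G : MetricGraph) : Type :=
  G.V ⊕ {x : G.E × ℝ // 0 < x.2 ∧ x.2 < G.len x.1}

/-- The point with coordinate `t ∈ [0, len e]` on the edge `e`. -/
noncomputable def pt (G : MetricGraph) (e : G.E) (t : ℝ) : G.Pt :=
  if h : 0 < t ∧ t < G.len e then Sum.inr ⟨(e, t), h⟩
  else if t ≤ 0 then Sum.inl (G.src e) else Sum.inl (G.tgt e)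

/-- `G.Path p q r`: there is a path of length `r` from `p` to `q`, made of finitely many segments,
each running inside one closed edge. -/
inductive Path (G : MetricGraph) : G.Pt → G.Pt → ℝ → Prop
  | refl (p : G.Pt) : Path G p p 0
  | step (e : G.E) (s t : ℝ) (q : G.Pt) (r : ℝ) :
      s ∈ Icc 0 (G.len e) → t ∈ Icc 0 (G.len e) → Path G (G.pt e t) q r →
        Path G (G.pt e s) q (|s - t| + r)

/-- The graph is connected: any two points are joined by a path. -/
def Connected (G : MetricGraph) : Prop :=
  ∀ p q : G.Pt, ∃ r, G.Path p q r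

/-- The path metric: the infimum of the lengths of the paths from `p` to `q`. -/
noncomputable def dist (G : MetricGraph) (p q : G.Pt) : ℝ :=
  sInf {r | G.Path p q r}

/-- The underlying metric spaces of `G` and `H` are isometric. -/
def Isometric (G H : MetricGraph) : Prop :=
  ∃ φ : G.Pt ≃ H.Pt, ∀ p q, H.dist (φ p) (φ q) = G.dist p q

open Classical in
/-- `ψ` is a real eigenfunction, for the eigenvalue `μ`, of the Laplacian with standard vertex
conditions: `ψ ≠ 0`; on each closed edge `ψ` is twice differentiable (one-sided at the ends, so it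
is continuous at the vertices) with `-ψ'' = μ ψ`; at each vertex the outgoing derivatives over the
incident edge ends sum to zero. -/
def IsEigenfunction (G : MetricGraph) (μ : ℝ) (ψ : G.Pt → ℝ) : Prop :=
  ψ ≠ 0 ∧ ∃ ψ' : G.E → ℝ → ℝ,
    (∀ e, ∀ t ∈ Icc 0 (G.len e),
      HasDerivWithinAt (fun s => ψ (G.pt e s)) (ψ' e t) (Icc 0 (G.len e)) t ∧
      HasDerivWithinAt (ψ' e) (-(μ * ψ (G.pt e t))) (Icc 0 (G.len e)) t) ∧
    ∀ v, (∑ e with G.src e = v, ψ' e 0) + (∑ e with G.tgt e = v, -ψ' e (G.len e)) = 0

/-- `ψ` is an eigenfunction for `μ₂`, the least positive eigenvalue. -/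
def IsSecondEigenfunction (G : MetricGraph) (ψ : G.Pt → ℝ) : Prop :=
  ∃ μ₂, IsLeast {μ : ℝ | 0 < μ ∧ ∃ φ, G.IsEigenfunction μ φ} μ₂ ∧ G.IsEigenfunction μ₂ ψ

/-- The set `M` of points where some second eigenfunction attains its global maximum or its
global minimum. -/
def hotSpots (G : MetricGraph) : Set G.Pt :=
  {x | ∃ ψ, G.IsSecondEigenfunction ψ ∧ ((∀ y, ψ y ≤ ψ x) ∨ (∀ y, ψ x ≤ ψ y))}

end MetricGraph

/-- The pumpkin: two vertices joined by `k` parallel edges of length `l`. -/
def pumpkin (k : ℕ) (l : ℝ) (hl : 0 < l) : MetricGraph where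
  V := Fin 2
  E := Fin k
  src _ := 0
  tgt _ := 1
  len _ := l
  len_pos _ := hl

/-- The complete graph `K_n` with all edges of length `l`. -/
def complete (n : ℕ) (l : ℝ) (hl : 0 < l) : MetricGraph where
  V := Fin n
  E := {p : Fin n × Fin n // p.1 < p.2}
  src p := p.1.1
  tgt p := p.1.2
  len _ := l
  len_pos _ := hl

/-- The complete bipartite graph `K_{m,n}` with all edges of length `l`. -/
def completeBipartite (m n : ℕ) (l : ℝ) (hl : 0 < l) : MetricGraph where
  V := Fin m ⊕ Fin n
  E := Fin m × Fin n
  src p := Sum.inl p.1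
  tgt p := Sum.inr p.2
  len _ := l
  len_pos _ := hl

end Pool.Agent.Lib.MP_630a53_an
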