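import Pool.Agent.Lib.MP_630a53_an.Defs

/-! Small spheres in a metric graph: the local degree is an isometry invariant. -/

open Set

namespace Pool.Agent.Lib.MP_630a53_an
namespace MetricGraph

variable {G H : MetricGraph}

lemma pt_zero (e : G.E) : G.pt e 0 = Sum.inl (G.src e) := by
  simp [pt]

lemma pt_len (e : G.E) : G.pt e (G.len e) = Sum.inl (G.tgt e) := by
  have := G.len_pos e
  simp [pt, not_le.mpr this]

lemma pt_int (e : G.E) (t : ℝ) (h : 0 < t ∧ t < G.len e) :
    G.pt e t = Sum.inr ⟨(e, t), h⟩ := by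
  simp [pt, h]

lemma Path.nonneg {p q : G.Pt} {r : ℝ} (h : G.Path p q r) : 0 ≤ r := by
  induction h with
  | refl p => exact le_rfl
  | step e s t q r _ _ _ ih => positivity

lemma Path.trans {p q w : G.Pt} {r r' : ℝ} (h : G.Path p q r) (h' : G.Path q w r') :
    G.Path p w (r + r') := by
  induction h with
  | refl p => simpa using h'
  | step e s t q r hs ht _ ih =>
    rw [add_assoc]
    exact Path.step e s t w _ hs ht (ih h')

lemma Path.single (e : G.E) {s t : ℝ} (hs : s ∈ Icc 0 (G.len e)) (ht : t ∈ Icc 0 (G.len e)) :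
    G.Path (G.pt e s) (G.pt e t) |s - t| := by
  simpa using Path.step e s t _ 0 hs ht (Path.refl _)

lemma bddBelow_path (p q : G.Pt) : BddBelow {r | G.Path p q r} :=
  ⟨0, fun _ h => Path.nonneg h⟩

lemma dist_le {p q : G.Pt} {r : ℝ} (h : G.Path p q r) : G.dist p q ≤ r :=
  csInf_le (bddBelow_path p q) h

lemma dist_self (p : G.Pt) : G.dist p p ≤ 0 := dist_le (Path.refl p)

/-- A function that is `1`-Lipschitz on every edge is `1`-Lipschitz along paths. -/
lemma Path.lip {φ : G.Pt → ℝ}
    (hφ : ∀ e, ∀ s ∈ Icc 0 (G.len e), ∀ t ∈ Icc 0 (G.len e),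
      φ (G.pt e t) - φ (G.pt e s) ≤ |s - t|)
    {p q : G.Pt} {r : ℝ} (h : G.Path p q r) : φ q - φ p ≤ r := by
  induction h with
  | refl p => simp
  | step e s t q r hs ht _ ih =>
    have := hφ e s hs t ht
    linarith

lemma lip_le_dist {φ : G.Pt → ℝ}
    (hφ : ∀ e, ∀ s ∈ Icc 0 (G.len e), ∀ t ∈ Icc 0 (G.len e),
      φ (G.pt e t) - φ (G.pt e s) ≤ |s - t|)
    {p q : G.Pt} (h : ∃ r, G.Path p q r) : φ q - φ p ≤ G.dist p q :=
  le_csInf h fun _ hr => Path.lip hφ hr

lemma exists_path_of_dist_pos {p q : G.Pt} (h : 0 < G.dist p q) : ∃ r, G.Path p q r := by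
  by_contra hne
  have : {r | G.Path p q r} = ∅ := by
    ext r; simp only [mem_ofPred_eq, mem_empty_iff_false, iff_false]
    exact fun hr => hne ⟨r, hr⟩
  simp [dist, this] at h

/-- The sphere of radius `r` about `x`. -/
def sph (G : MetricGraph) (x : G.Pt) (r : ℝ) : Set G.Pt := {y | G.dist x y = r}

/-- All small spheres about `x` have exactly `d` points. -/
def Branch (G : MetricGraph) (x : G.Pt) (d : ℕ) : Prop :=
  ∃ ε > 0, ∀ r, 0 < r → r < ε → (G.sph x r).ncard = d

lemma Branch.unique {x : G.Pt} {d d' : ℕ} (h : G.Branch x d) (h' : G.Branch x d') : d = d' := by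
  obtain ⟨ε, hε, h⟩ := h
  obtain ⟨ε', hε', h'⟩ := h'
  have h1 : 0 < min ε ε' / 2 := by positivity
  have h2 : min ε ε' / 2 < min ε ε' := by have := lt_min hε hε'; linarith
  rw [← h _ h1 (h2.trans_le (min_le_left _ _)), ← h' _ h1 (h2.trans_le (min_le_right _ _))]

lemma Branch.map {φ : G.Pt ≃ H.Pt} (hφ : ∀ p q, H.dist (φ p) (φ q) = G.dist p q)
    {x : G.Pt} {d : ℕ} (h : G.Branch x d) : H.Branch (φ x) d := by
  obtain ⟨ε, hε, h⟩ := h
  refine ⟨ε, hε, fun r hr hr' => ?_⟩
  rw [← h r hr hr']
  have : H.sph (φ x) r = φ '' G.sph x r := by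
    ext y
    constructor
    · intro hy
      refine ⟨φ.symm y, ?_, by simp⟩
      have := hφ x (φ.symm y)
      simp only [Equiv.apply_symm_apply] at this
      simpa [sph, ← this] using hy
    · rintro ⟨z, hz, rfl⟩
      simpa [sph, hφ] using hz
  rw [this, Set.ncard_image_of_injective _ φ.injective]

lemma cases_Icc {L t : ℝ} (ht : t ∈ Icc 0 L) : t = 0 ∨ t = L ∨ (0 < t ∧ t < L) := by
  rcases ht.1.eq_or_lt with h | h
  · exact Or.inl h.symm
  · rcases ht.2.eq_or_lt with h' | h'
    · exact Or.inr (Or.inl h')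
    · exact Or.inr (Or.inr ⟨h, h'⟩)

/-- An interior point of an edge has small spheres with at most two points. -/
lemma branch_interior_le (x : {x : G.E × ℝ // 0 < x.2 ∧ x.2 < G.len x.1}) {d : ℕ}
    (h : G.Branch (Sum.inr x) d) : d ≤ 2 := by
  classical
  obtain ⟨⟨e₀, t₀⟩, ht₀, ht₀'⟩ := x
  obtain ⟨ε, hε, h⟩ := h
  simp only at ht₀ ht₀'
  set δ := min t₀ (G.len e₀ - t₀) with hδ
  have hδ0 : 0 < δ := lt_min ht₀ (by linarith)
  have hδ1 : δ ≤ t₀ := min_le_left _ _
  have hδ2 : δ ≤ G.len e₀ - t₀ := min_le_right _ _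
  let φ : G.Pt → ℝ := fun y => match y with
    | Sum.inl _ => δ
    | Sum.inr z => if z.1.1 = e₀ then min δ |z.1.2 - t₀| else δ
  have hφpt : ∀ e, ∀ s ∈ Icc 0 (G.len e),
      φ (G.pt e s) = if e = e₀ then min δ |s - t₀| else δ := by
    intro e s hs
    rcases cases_Icc hs with rfl | rfl | hs'
    · rw [pt_zero]
      split_ifs
      · simp only [φ]
        rw [min_eq_left]
        rw [abs_of_nonpos (by linarith)]; linarith
      · rfl
    · rw [pt_len]
      split_ifs with he
      · subst he
        simp only [φ]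
        rw [min_eq_left]
        rw [abs_of_nonneg (by linarith)]; linarith
      · rfl
    · rw [pt_int e s hs']
  have hφ : ∀ e, ∀ s ∈ Icc 0 (G.len e), ∀ t ∈ Icc 0 (G.len e),
      φ (G.pt e t) - φ (G.pt e s) ≤ |s - t| := by
    intro e s hs t ht
    rw [hφpt e s hs, hφpt e t ht]
    split_ifs
    · have h1 : |t - t₀| ≤ |s - t₀| + |s - t| := by
        have := abs_sub_le t s t₀
        rw [abs_sub_comm t s] at this; linarith
      have h2 := abs_nonneg (s - t)
      rcases le_total δ |s - t₀| with h3 | h3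
      · rw [min_eq_left h3]; have := min_le_left δ |t - t₀|; linarith
      · rw [min_eq_right h3]; have := min_le_right δ |t - t₀|; linarith
    · simp
  set r := min ε δ / 2 with hr
  have hr0 : 0 < r := by positivity
  have hr1 : r < min ε δ := by have := lt_min hε hδ0; linarith
  have hrε : r < ε := hr1.trans_le (min_le_left _ _)
  have hrδ : r < δ := hr1.trans_le (min_le_right _ _)
  rw [← h r hr0 hrε]
  have hx : (Sum.inr ⟨(e₀, t₀), ht₀, ht₀'⟩ : G.Pt) = G.pt e₀ t₀ :=
    (pt_int e₀ t₀ ⟨ht₀, ht₀'⟩).symm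
  have hsub : G.sph (Sum.inr ⟨(e₀, t₀), ht₀, ht₀'⟩) r ⊆ {G.pt e₀ (t₀ - r), G.pt e₀ (t₀ + r)} := by
    intro y hy
    have hy' : G.dist (Sum.inr ⟨(e₀, t₀), ht₀, ht₀'⟩) y = r := hy
    have hle := lip_le_dist hφ (exists_path_of_dist_pos (hy' ▸ hr0))
    rw [hy'] at hle
    have hφx : φ (Sum.inr ⟨(e₀, t₀), ht₀, ht₀'⟩) = 0 := by
      simp [φ, hδ0.le]
    rw [hφx, sub_zero] at hle
    rcases y with v | ⟨⟨e, s⟩, hs, hs'⟩
    · simp only [φ] at hle; linarith
    · simp only [φ] at hle
      split_ifs at hle with he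
      · subst he
        simp only at hs hs'
        have h1 : |s - t₀| ≤ r := by
          rcases le_total δ |s - t₀| with h3 | h3
          · rw [min_eq_left h3] at hle; linarith
          · rwa [min_eq_right h3] at hle
        have h2 : r ≤ |t₀ - s| := by
          rw [← hy', hx, ← pt_int e s ⟨hs, hs'⟩]
          exact dist_le (Path.single e ⟨ht₀.le, ht₀'.le⟩ ⟨hs.le, hs'.le⟩)
        rw [abs_sub_comm] at h2
        have h3 : |s - t₀| = r := le_antisymm h1 h2
        rw [← pt_int e s ⟨hs, hs'⟩]
        rcases (abs_eq hr0.le).mp h3 with h4 | h4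
        · right; rw [show s = t₀ + r by linarith]; rfl
        · left; rw [show s = t₀ - r by linarith]
      · linarith
  exact (Set.ncard_le_ncard hsub (Set.toFinite _)).trans 
    ((Set.ncard_insert_le _ _).trans (by rw [Set.ncard_singleton]))

open Classical in
/-- The degree of a vertex: the number of edge ends at it. -/
noncomputable def deg (G : MetricGraph) (v : G.V) : ℕ :=
  (Finset.univ.filter fun e => G.src e = v).card + (Finset.univ.filter fun e => G.tgt e = v).card

lemma exists_le_len (G : MetricGraph) : ∃ δ > 0, ∀ e, δ ≤ G.len e := by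
  classical
  rcases isEmpty_or_nonempty G.E with h | h
  · exact ⟨1, one_pos, fun e => h.elim e⟩
  · obtain ⟨e₀, he₀⟩ := Finite.exists_min G.len
    exact ⟨G.len e₀, G.len_pos e₀, he₀⟩

/-- Small spheres about a vertex have as many points as the degree of the vertex. -/
lemma branch_vertex (v : G.V) : G.Branch (Sum.inl v) (G.deg v) := by
  classical
  obtain ⟨δ, hδ0, hδ⟩ := G.exists_le_len
  let g : G.E → ℝ → ℝ := fun e t =>
    min δ (min (if G.src e = v then t else δ) (if G.tgt e = v then G.len e - t else δ))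
  let φ : G.Pt → ℝ := fun y => match y with
    | Sum.inl w => if w = v then 0 else δ
    | Sum.inr z => g z.1.1 z.1.2
  have hφpt : ∀ e, ∀ s ∈ Icc 0 (G.len e), φ (G.pt e s) = g e s := by
    intro e s hs
    have h1 := hδ e
    rcases cases_Icc hs with rfl | rfl | hs'
    · rw [pt_zero]
      simp only [φ, g]
      split_ifs <;> simp [hδ0.le, (G.len_pos e).le, h1]
    · rw [pt_len]
      simp only [φ, g]
      split_ifs <;> simp [hδ0.le, (G.len_pos e).le, h1]
    · rw [pt_int e s hs']
  have hmin : ∀ a b a' b' c : ℝ, a' - a ≤ c → b' - b ≤ c → min a' b' - min a b ≤ c := by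
    intro a b a' b' c h1 h2
    rcases le_total a b with h3 | h3
    · rw [min_eq_left h3]; have := min_le_left a' b'; linarith
    · rw [min_eq_right h3]; have := min_le_right a' b'; linarith
  have hφ : ∀ e, ∀ s ∈ Icc 0 (G.len e), ∀ t ∈ Icc 0 (G.len e),
      φ (G.pt e t) - φ (G.pt e s) ≤ |s - t| := by
    intro e s hs t ht
    rw [hφpt e s hs, hφpt e t ht]
    have h0 := abs_nonneg (s - t)
    have h1 := le_abs_self (s - t)
    have h2 := neg_abs_le (s - t)
    apply hmin
    · linarith
    · apply hmin
      · split_ifs <;> linarith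
      · split_ifs <;> linarith
  refine ⟨δ / 2, by positivity, fun r hr0 hr1 => ?_⟩
  have hφv : φ (Sum.inl v) = 0 := by simp [φ]
  have hA : ∀ e, 0 < r ∧ r < G.len e := fun e => ⟨hr0, by have := hδ e; linarith⟩
  have hB : ∀ e, 0 < G.len e - r ∧ G.len e - r < G.len e := fun e =>
    ⟨by have := hδ e; linarith, by linarith⟩
  let A : G.E → G.Pt := fun e => Sum.inr ⟨(e, r), hA e⟩
  let B : G.E → G.Pt := fun e => Sum.inr ⟨(e, G.len e - r), hB e⟩
  have hAinj : Function.Injective A := by
    intro e e' h
    simp only [A] at h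
    have := Subtype.ext_iff.mp (Sum.inr_injective h)
    exact (Prod.ext_iff.mp this).1
  have hBinj : Function.Injective B := by
    intro e e' h
    simp only [B] at h
    have := Subtype.ext_iff.mp (Sum.inr_injective h)
    exact (Prod.ext_iff.mp this).1
  have pathA : ∀ e, G.src e = v → ∀ s, (hs : 0 < s ∧ s < G.len e) →
      G.Path (Sum.inl v) (Sum.inr ⟨(e, s), hs⟩) s := by
    intro e he s hs
    have := Path.single (G := G) e (s := 0) (t := s) ⟨le_rfl, (G.len_pos e).le⟩ ⟨hs.1.le, hs.2.le⟩
    rw [pt_zero, he, pt_int e s hs, zero_sub, abs_neg, abs_of_pos hs.1] at this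
    exact this
  have pathB : ∀ e, G.tgt e = v → ∀ s, (hs : 0 < s ∧ s < G.len e) →
      G.Path (Sum.inl v) (Sum.inr ⟨(e, s), hs⟩) (G.len e - s) := by
    intro e he s hs
    have := Path.single (G := G) e (s := G.len e) (t := s) ⟨(G.len_pos e).le, le_rfl⟩
      ⟨hs.1.le, hs.2.le⟩
    rw [pt_len, he, pt_int e s hs, abs_of_pos (by linarith [hs.2])] at this
    exact this
  have hsph : G.sph (Sum.inl v) r =
      A '' {e | G.src e = v} ∪ B '' {e | G.tgt e = v} := by
    ext y
    constructor
    · intro hy
      have hy' : G.dist (Sum.inl v) y = r := hy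
      have hle := lip_le_dist hφ (exists_path_of_dist_pos (hy' ▸ hr0))
      rw [hy', hφv, sub_zero] at hle
      rcases y with w | ⟨⟨e, s⟩, hs, hs'⟩
      · simp only [φ] at hle
        split_ifs at hle with hw
        · subst hw
          have := dist_self (G := G) (Sum.inl w)
          linarith
        · linarith
      · simp only [φ, g] at hle
        simp only at hs hs'
        rcases min_le_iff.mp hle with h1 | h1
        · linarith
        rcases min_le_iff.mp h1 with h2 | h2
        · split_ifs at h2 with he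
          · left
            refine ⟨e, he, ?_⟩
            have h3 := dist_le (pathA e he s ⟨hs, hs'⟩)
            have h4 : s = r := by linarith
            subst h4; rfl
          · linarith
        · split_ifs at h2 with he
          · right
            refine ⟨e, he, ?_⟩
            have h3 := dist_le (pathB e he s ⟨hs, hs'⟩)
            have h4 : s = G.len e - r := by linarith
            subst h4; rfl
          · linarith
    · rintro (⟨e, he, rfl⟩ | ⟨e, he, rfl⟩)
      · have hp := pathA e he r (hA e)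
        refine le_antisymm (dist_le hp) ?_
        have hle := lip_le_dist hφ ⟨_, hp⟩
        rw [hφv, sub_zero] at hle
        refine le_trans ?_ hle
        simp only [φ, g]
        have he' : G.src e = v := he
        have := hδ e
        refine le_min (by linarith) (le_min (by simp [he']) ?_)
        split_ifs <;> linarith
      · have hp := pathB e he _ (hB e)
        have hp' := dist_le hp
        refine le_antisymm (by simpa using hp') ?_
        have hle := lip_le_dist hφ ⟨_, hp⟩
        rw [hφv, sub_zero] at hle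
        refine le_trans ?_ hle
        simp only [φ, g]
        have he' : G.tgt e = v := he
        have := hδ e
        refine le_min (by linarith) (le_min ?_ (by simp [he']))
        split_ifs <;> linarith
  have hdisj : Disjoint (A '' {e | G.src e = v}) (B '' {e | G.tgt e = v}) := by
    rw [Set.disjoint_left]
    rintro _ ⟨e, -, rfl⟩ ⟨e', -, h⟩
    simp only [A, B] at h
    have := Prod.ext_iff.mp (Subtype.ext_iff.mp (Sum.inr_injective h))
    simp only at this
    have h1 := hδ e'
    linarith [this.2]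
  rw [hsph, Set.ncard_union_eq hdisj (Set.toFinite _) (Set.toFinite _),
    Set.ncard_image_of_injective _ hAinj, Set.ncard_image_of_injective _ hBinj, deg]
  congr 1
  · rw [← Set.ncard_coe_finset]; congr 1; ext e; simp
  · rw [← Set.ncard_coe_finset]; congr 1; ext e; simp

/-- An isometry sends a vertex of degree at least three to a vertex of the same degree. -/
lemma map_vertex {φ : G.Pt ≃ H.Pt} (hφ : ∀ p q, H.dist (φ p) (φ q) = G.dist p q)
    (v : G.V) (hv : 3 ≤ G.deg v) : ∃ w : H.V, φ (Sum.inl v) = Sum.inl w ∧ H.deg w = G.deg v := by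
  have h := (branch_vertex v).map hφ
  rcases hy : φ (Sum.inl v) with w | x
  · rw [hy] at h
    exact ⟨w, rfl, (branch_vertex w).unique h⟩
  · rw [hy] at h
    have := branch_interior_le x h
    omega

end MetricGraph
end Pool.Agent.Lib.MP_630a53_an
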