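import Pool.Agent.Lib.MP_630a53_an.Metric

/-! The second eigenvalue and the hot spots of the equilateral complete bipartite graph. -/

open Set Real

namespace Pool.Agent.Lib.MP_630a53_an

lemma const_of_deriv_zero {L : ℝ} {u : ℝ → ℝ}
    (hu : ∀ t ∈ Icc 0 L, HasDerivWithinAt u 0 (Icc 0 L) t) {t : ℝ} (ht : t ∈ Icc 0 L) :
    u t = u 0 := by
  have h0 : (0 : ℝ) ∈ Icc 0 L := ⟨le_rfl, ht.1.trans ht.2⟩
  have := (convex_Icc (0 : ℝ) L).norm_image_sub_le_of_norm_hasDerivWithin_le (C := 0)
    (f := u) (f' := fun _ => 0) hu (by simp) h0 ht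
  simpa [sub_eq_zero] using this

/-- First integrals of the equation `f'' = -k^2 f` on a closed interval. -/
lemma ode_integrals {L k : ℝ} {f g : ℝ → ℝ}
    (h : ∀ t ∈ Icc 0 L, HasDerivWithinAt f (g t) (Icc 0 L) t ∧
      HasDerivWithinAt g (-(k ^ 2 * f t)) (Icc 0 L) t) {t : ℝ} (ht : t ∈ Icc 0 L) :
    k * f t * cos (k * t) - g t * sin (k * t) = k * f 0 ∧
      k * f t * sin (k * t) + g t * cos (k * t) = g 0 := by
  have hc : ∀ s, HasDerivWithinAt (fun s => cos (k * s)) (-(k * sin (k * s))) (Icc 0 L) s := by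
    intro s
    have := ((hasDerivAt_id s).const_mul k).cos
    simp only [id, mul_one] at this
    exact this.hasDerivWithinAt.congr_deriv (by ring)
  have hs : ∀ s, HasDerivWithinAt (fun s => sin (k * s)) (k * cos (k * s)) (Icc 0 L) s := by
    intro s
    have := ((hasDerivAt_id s).const_mul k).sin
    simp only [id, mul_one] at this
    exact this.hasDerivWithinAt.congr_deriv (by ring)
  constructor
  · have := const_of_deriv_zero (L := L)
      (u := fun s => k * f s * cos (k * s) - g s * sin (k * s)) (fun s hs' => by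
        have := (((h s hs').1.const_mul k).mul (hc s)).sub ((h s hs').2.mul (hs s))
        exact this.congr_deriv (by ring)) ht
    simpa using this
  · have := const_of_deriv_zero (L := L)
      (u := fun s => k * f s * sin (k * s) + g s * cos (k * s)) (fun s hs' => by
        have := (((h s hs').1.const_mul k).mul (hs s)).add ((h s hs').2.mul (hc s))
        exact this.congr_deriv (by ring)) ht
    simpa using this

section
variable {m n : ℕ} {l : ℝ} (hl : 0 < l)

open MetricGraph

lemma cb_cover (hm : 0 < m) (hn : 0 < n) (x : (completeBipartite m n l hl).Pt) :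
    ∃ e : Fin m × Fin n, ∃ t ∈ Icc 0 l, x = (completeBipartite m n l hl).pt e t := by
  rcases x with (u | w) | ⟨⟨e, t⟩, ht⟩
  · exact ⟨(u, ⟨0, hn⟩), 0, ⟨le_rfl, hl.le⟩,
      (pt_zero (G := completeBipartite m n l hl) (u, ⟨0, hn⟩)).symm⟩
  · exact ⟨(⟨0, hm⟩, w), l, ⟨hl.le, le_rfl⟩,
      (pt_len (G := completeBipartite m n l hl) (⟨0, hm⟩, w)).symm⟩
  · exact ⟨e, t, ⟨ht.1.le, ht.2.le⟩, (pt_int (G := completeBipartite m n l hl) e t ht).symm⟩

lemma cb_connected (hm : 0 < m) (hn : 0 < n) : (completeBipartite m n l hl).Connected := by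
  intro p q
  obtain ⟨⟨u, w⟩, s, hs, rfl⟩ := cb_cover hl hm hn p
  obtain ⟨⟨u', w'⟩, t, ht, rfl⟩ := cb_cover hl hm hn q
  have h0 : (0 : ℝ) ∈ Icc 0 l := ⟨le_rfl, hl.le⟩
  have h1 : l ∈ Icc 0 l := ⟨hl.le, le_rfl⟩
  have p1 := Path.single (G := completeBipartite m n l hl) (u, w) hs h0
  have p2 := Path.single (G := completeBipartite m n l hl) (u, w') h0 h1
  have p3 := Path.single (G := completeBipartite m n l hl) (u', w') h1 ht
  have e1 : (completeBipartite m n l hl).pt (u, w) 0 = (completeBipartite m n l hl).pt (u, w') 0 := by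
    rw [pt_zero, pt_zero]; rfl
  have e2 : (completeBipartite m n l hl).pt (u, w') l =
      (completeBipartite m n l hl).pt (u', w') l := by
    have a := pt_len (G := completeBipartite m n l hl) (u, w')
    have b := pt_len (G := completeBipartite m n l hl) (u', w')
    exact a.trans b.symm
  rw [e1] at p1
  rw [e2] at p2
  exact ⟨_, (p1.trans p2).trans p3⟩

lemma cb_sum_src (F : Fin m × Fin n → ℝ) (u : Fin m)
    (i : DecidablePred fun e : Fin m × Fin n => (Sum.inl e.1 : Fin m ⊕ Fin n) = Sum.inl u) :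
    (∑ e : Fin m × Fin n with (Sum.inl e.1 : Fin m ⊕ Fin n) = Sum.inl u, F e) = ∑ w, F (u, w) := by
  rw [Finset.sum_filter, Fintype.sum_prod_type, Finset.sum_eq_single u]
  · simp
  · intro b _ hb; simp [hb]
  · simp

lemma cb_sum_tgt (F : Fin m × Fin n → ℝ) (w : Fin n)
    (i : DecidablePred fun e : Fin m × Fin n => (Sum.inr e.2 : Fin m ⊕ Fin n) = Sum.inr w) :
    (∑ e : Fin m × Fin n with (Sum.inr e.2 : Fin m ⊕ Fin n) = Sum.inr w, F e) = ∑ u, F (u, w) := by
  rw [Finset.sum_filter, Fintype.sum_prod_type]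
  refine Finset.sum_congr rfl fun u _ => ?_
  rw [Finset.sum_eq_single w]
  · simp
  · intro b _ hb; simp [hb]
  · simp

lemma cb_sum_src' (F : Fin m × Fin n → ℝ) (w : Fin n)
    (i : DecidablePred fun e : Fin m × Fin n => (Sum.inl e.1 : Fin m ⊕ Fin n) = Sum.inr w) :
    (∑ e : Fin m × Fin n with (Sum.inl e.1 : Fin m ⊕ Fin n) = Sum.inr w, F e) = 0 := by
  simp

lemma cb_sum_tgt' (F : Fin m × Fin n → ℝ) (u : Fin m)
    (i : DecidablePred fun e : Fin m × Fin n => (Sum.inr e.2 : Fin m ⊕ Fin n) = Sum.inl u) :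
    (∑ e : Fin m × Fin n with (Sum.inr e.2 : Fin m ⊕ Fin n) = Sum.inl u, F e) = 0 := by
  simp

/-- The Kirchhoff conditions on the complete bipartite graph. -/
lemma cb_kirchhoff (g : Fin m × Fin n → ℝ → ℝ) :
    (open Classical in ∀ v : (completeBipartite m n l hl).V,
      (∑ e with (completeBipartite m n l hl).src e = v, g e 0) +
      (∑ e with (completeBipartite m n l hl).tgt e = v,
        -g e ((completeBipartite m n l hl).len e)) = 0) ↔
    (∀ u, ∑ w, g (u, w) 0 = 0) ∧ (∀ w, ∑ u, g (u, w) l = 0) := by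
  have A : open Classical in ∀ u : Fin m,
      (∑ e with (completeBipartite m n l hl).src e = Sum.inl u, g e 0) +
      (∑ e with (completeBipartite m n l hl).tgt e = Sum.inl u,
        -g e ((completeBipartite m n l hl).len e)) = ∑ w, g (u, w) 0 := by
    intro u
    refine (congrArg₂ (· + ·) (cb_sum_src (fun e => g e 0) u _)
      (cb_sum_tgt' (fun e => -g e l) u _)).trans ?_
    simp
  have B : open Classical in ∀ w : Fin n,
      (∑ e with (completeBipartite m n l hl).src e = Sum.inr w, g e 0) +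
      (∑ e with (completeBipartite m n l hl).tgt e = Sum.inr w,
        -g e ((completeBipartite m n l hl).len e)) = -∑ u, g (u, w) l := by
    intro w
    refine (congrArg₂ (· + ·) (cb_sum_src' (fun e => g e 0) w _)
      (cb_sum_tgt (fun e => -g e l) w _)).trans ?_
    simp
  constructor
  · intro h
    refine ⟨fun u => ?_, fun w => ?_⟩
    · rw [← A u]; exact h (Sum.inl u)
    · rw [← neg_eq_zero, ← B w]; exact h (Sum.inr w)
  · rintro ⟨h1, h2⟩ (u | w)
    · have := A u
      rw [h1 u] at this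
      exact this
    · have := B w
      rw [h2 w, neg_zero] at this
      exact this

/-- No eigenvalue lies strictly between `0` and `(π / (2 l)) ^ 2`. -/
lemma cb_lower (hm : 0 < m) (hn : 0 < n) {μ : ℝ} (hμ : 0 < μ)
    {ψ : (completeBipartite m n l hl).Pt → ℝ}
    (hψ : (completeBipartite m n l hl).IsEigenfunction μ ψ) : (π / (2 * l)) ^ 2 ≤ μ := by
  by_contra hlt
  push Not at hlt
  obtain ⟨hne, g, hode, hK⟩ := hψ
  rw [cb_kirchhoff hl g] at hK
  obtain ⟨hK1, hK2⟩ := hK
  set k := √μ with hk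
  have hk0 : 0 < k := Real.sqrt_pos.mpr hμ
  have hk2 : μ = k ^ 2 := (Real.sq_sqrt hμ.le).symm
  have hkl : k * l < π / 2 := by
    have : k < π / (2 * l) := by
      rw [hk2] at hlt
      exact lt_of_pow_lt_pow_left₀ 2 (by positivity) hlt
    rw [lt_div_iff₀ (by positivity)] at this
    linarith
  have hkl0 : 0 < k * l := by positivity
  have hcos : 0 < cos (k * l) := cos_pos_of_mem_Ioo ⟨by linarith [pi_pos], hkl⟩
  have hsin : 0 < sin (k * l) := sin_pos_of_pos_of_lt_pi hkl0 (by linarith [pi_pos])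
  have hsc := sin_sq_add_cos_sq (k * l)
  set c := cos (k * l)
  set s := sin (k * l)
  let a : Fin m → ℝ := fun u => ψ (Sum.inl (Sum.inl u))
  let b : Fin n → ℝ := fun w => ψ (Sum.inl (Sum.inr w))
  have hint : ∀ e : Fin m × Fin n, ∀ t ∈ Icc 0 l,
      k * ψ ((completeBipartite m n l hl).pt e t) * cos (k * t) - g e t * sin (k * t) = k * a e.1 ∧
      k * ψ ((completeBipartite m n l hl).pt e t) * sin (k * t) + g e t * cos (k * t) = g e 0 := by
    intro e t ht
    have := ode_integrals (L := l) (k := k)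
      (f := fun s => ψ ((completeBipartite m n l hl).pt e s)) (g := g e)
      (fun t ht => by rw [← hk2]; exact hode e t ht) ht
    simp only [pt_zero (G := completeBipartite m n l hl) e] at this
    exact this
  have hend : ∀ e : Fin m × Fin n,
      k * b e.2 * c - g e l * s = k * a e.1 ∧ k * b e.2 * s + g e l * c = g e 0 := by
    intro e
    have := hint e l ⟨hl.le, le_rfl⟩
    have h2 : (completeBipartite m n l hl).pt e l = Sum.inl (Sum.inr e.2) :=
      pt_len (G := completeBipartite m n l hl) e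
    rw [h2] at this
    exact this
  have hg0 : ∀ u w, g (u, w) 0 * s = k * (b w - a u * c) := by
    intro u w
    obtain ⟨h1, h2⟩ := hend (u, w)
    simp only at h1 h2
    linear_combination (-s) * h2 + (-c) * h1 + (k * b w) * hsc
  have hgl : ∀ u w, g (u, w) l * s = k * (b w * c - a u) := by
    intro u w
    obtain ⟨h1, h2⟩ := hend (u, w)
    simp only at h1 h2
    linear_combination (-1 : ℝ) * h1
  have hA : ∀ u, ∑ w, b w = n * (a u * c) := by
    intro u
    have h1 : ∑ w, g (u, w) 0 * s = 0 := by rw [← Finset.sum_mul, hK1, zero_mul]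
    simp only [hg0, ← Finset.mul_sum, Finset.sum_sub_distrib, Finset.sum_const, Finset.card_univ,
      Fintype.card_fin, nsmul_eq_mul] at h1
    have := (mul_eq_zero.mp h1).resolve_left hk0.ne'
    linarith
  have hB : ∀ w, ∑ u, a u = m * (b w * c) := by
    intro w
    have h1 : ∑ u, g (u, w) l * s = 0 := by rw [← Finset.sum_mul, hK2, zero_mul]
    simp only [hgl, ← Finset.mul_sum, Finset.sum_sub_distrib, Finset.sum_const, Finset.card_univ,
      Fintype.card_fin, nsmul_eq_mul] at h1
    have := (mul_eq_zero.mp h1).resolve_left hk0.ne'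
    linarith
  have hm' : (0 : ℝ) < m := by exact_mod_cast hm
  have hn' : (0 : ℝ) < n := by exact_mod_cast hn
  set SA := ∑ u, a u with hSA
  set SB := ∑ w, b w with hSB
  have hA' : m * SB = n * (SA * c) := by
    have : ∑ u : Fin m, SB = ∑ u : Fin m, n * (a u * c) := Finset.sum_congr rfl fun u _ => hA u
    simpa [← Finset.mul_sum, ← Finset.sum_mul] using this
  have hB' : n * SA = m * (SB * c) := by
    have : ∑ w : Fin n, SA = ∑ w : Fin n, m * (b w * c) := Finset.sum_congr rfl fun w _ => hB w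
    simpa [← Finset.mul_sum, ← Finset.sum_mul] using this
  have hSA0 : SA = 0 := by
    have : n * SA * s ^ 2 = 0 := by linear_combination hB' + c * hA' + (n * SA) * hsc
    rcases mul_eq_zero.mp this with h | h
    · exact (mul_eq_zero.mp h).resolve_left hn'.ne'
    · exact absurd h (by positivity)
  have hSB0 : SB = 0 := by
    rw [hSA0] at hA'
    simpa [hm'.ne'] using hA'
  have ha0 : ∀ u, a u = 0 := by
    intro u
    have := hA u
    rw [hSB0] at this
    simpa [hn'.ne', hcos.ne'] using this.symm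
  have hb0 : ∀ w, b w = 0 := by
    intro w
    have := hB w
    rw [hSA0] at this
    simpa [hm'.ne', hcos.ne'] using this.symm
  apply hne
  funext x
  obtain ⟨⟨u, w⟩, t, ht, rfl⟩ := cb_cover hl hm hn x
  obtain ⟨h1, h2⟩ := hint (u, w) t ht
  have h3 : g (u, w) 0 = 0 := by
    have := hg0 u w
    rw [ha0, hb0] at this
    simpa [hsin.ne'] using this
  simp only [ha0, h3] at h1 h2
  have h4 := sin_sq_add_cos_sq (k * t)
  have : k * ψ ((completeBipartite m n l hl).pt (u, w) t) = 0 := by
    linear_combination cos (k * t) * h1 + sin (k * t) * h2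
      - (k * ψ ((completeBipartite m n l hl).pt (u, w) t)) * h4
  exact (mul_eq_zero.mp this).resolve_left hk0.ne'

/-- The function with values `α`, `β` at the vertices and `α cos + β sin` on the edges. -/
noncomputable def cbFun (α : Fin m → ℝ) (β : Fin n → ℝ) : (completeBipartite m n l hl).Pt → ℝ
  | Sum.inl (Sum.inl u) => α u
  | Sum.inl (Sum.inr w) => β w
  | Sum.inr z => α z.1.1.1 * cos (π / (2 * l) * z.1.2) + β z.1.1.2 * sin (π / (2 * l) * z.1.2)

lemma cbFun_pt (α : Fin m → ℝ) (β : Fin n → ℝ) (e : Fin m × Fin n) {t : ℝ} (ht : t ∈ Icc 0 l) :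
    cbFun hl α β ((completeBipartite m n l hl).pt e t) =
      α e.1 * cos (π / (2 * l) * t) + β e.2 * sin (π / (2 * l) * t) := by
  rcases cases_Icc ht with rfl | rfl | h
  · rw [pt_zero (G := completeBipartite m n l hl) e]
    simp only [mul_zero, cos_zero, sin_zero, mul_one, add_zero]
    rfl
  · have h2 : (completeBipartite m n t hl).pt e t = Sum.inl (Sum.inr e.2) :=
      pt_len (G := completeBipartite m n t hl) e
    have h3 : π / (2 * t) * t = π / 2 := by field_simp
    rw [h2, h3]
    simp only [cos_pi_div_two, sin_pi_div_two, mul_zero, mul_one, zero_add]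
    rfl
  · rw [pt_int (G := completeBipartite m n l hl) e t h]
    rfl

lemma cbFun_eigen (α : Fin m → ℝ) (β : Fin n → ℝ) (hα : ∑ u, α u = 0) (hβ : ∑ w, β w = 0)
    (hne : cbFun hl α β ≠ 0) :
    (completeBipartite m n l hl).IsEigenfunction ((π / (2 * l)) ^ 2) (cbFun hl α β) := by
  set k := π / (2 * l) with hk
  have hc : ∀ s, HasDerivAt (fun s => cos (k * s)) (-(k * sin (k * s))) s := by
    intro s
    have := ((hasDerivAt_id s).const_mul k).cos
    simp only [id, mul_one] at this
    exact this.congr_deriv (by ring)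
  have hs : ∀ s, HasDerivAt (fun s => sin (k * s)) (k * cos (k * s)) s := by
    intro s
    have := ((hasDerivAt_id s).const_mul k).sin
    simp only [id, mul_one] at this
    exact this.congr_deriv (by ring)
  refine ⟨hne, fun e t => α e.1 * (-(k * sin (k * t))) + β e.2 * (k * cos (k * t)), ?_, ?_⟩
  · intro e t ht
    constructor
    · have := (((hc t).const_mul (α e.1)).add ((hs t).const_mul (β e.2))).hasDerivWithinAt
        (s := Icc 0 l)
      exact this.congr_of_mem (fun s hs' => cbFun_pt hl α β e hs') ht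
    · have := (((((hs t).const_mul k).neg).const_mul (α e.1)).add
        (((hc t).const_mul k).const_mul (β e.2))).hasDerivWithinAt (s := Icc 0 l)
      rw [cbFun_pt hl α β e ht]
      exact this.congr_deriv (by ring)
  · refine (cb_kirchhoff hl
      (fun e t => α e.1 * (-(k * sin (k * t))) + β e.2 * (k * cos (k * t)))).mpr ⟨?_, ?_⟩
    · intro u
      simp [← Finset.sum_mul, hβ]
    · intro w
      have h3 : k * l = π / 2 := by rw [hk]; field_simp
      simp [h3, ← Finset.sum_mul, hα]

lemma exists_weights {m : ℕ} (hm : 2 ≤ m) (u₀ : Fin m) {c : ℝ} (hc : 0 ≤ c) :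
    ∃ α : Fin m → ℝ, ∑ u, α u = 0 ∧ α u₀ = c ∧ ∀ u, α u ≤ c := by
  classical
  have : Nontrivial (Fin m) := Fin.nontrivial_iff_two_le.mpr hm
  obtain ⟨u₁, hu₁⟩ := exists_ne u₀
  refine ⟨fun u => (if u = u₀ then c else 0) - (if u = u₁ then c else 0), ?_, ?_, ?_⟩
  · simp [Finset.sum_sub_distrib]
  · simp [hu₁.symm]
  · intro u
    dsimp only
    split_ifs <;> linarith

/-- For every point there is an eigenfunction for `(π / (2 l)) ^ 2` with its maximum there. -/
lemma cb_exists_max (hm : 2 ≤ m) (hn : 2 ≤ n) (x : (completeBipartite m n l hl).Pt) :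
    ∃ ψ, (completeBipartite m n l hl).IsEigenfunction ((π / (2 * l)) ^ 2) ψ ∧ ∀ y, ψ y ≤ ψ x := by
  have hm0 : 0 < m := by omega
  have hn0 : 0 < n := by omega
  obtain ⟨⟨u₀, w₀⟩, t₀, ht₀, rfl⟩ := cb_cover hl hm0 hn0 x
  set k := π / (2 * l) with hk
  have hk0 : 0 < k := by positivity
  have hkl : k * l = π / 2 := by rw [hk]; field_simp
  have hcos : ∀ t ∈ Icc 0 l, 0 ≤ cos (k * t) := fun t ht =>
    cos_nonneg_of_mem_Icc ⟨by have := mul_nonneg hk0.le ht.1; linarith [pi_pos],
      by have := mul_le_mul_of_nonneg_left ht.2 hk0.le; linarith⟩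
  have hsin : ∀ t ∈ Icc 0 l, 0 ≤ sin (k * t) := fun t ht =>
    sin_nonneg_of_nonneg_of_le_pi (mul_nonneg hk0.le ht.1)
      (by have := mul_le_mul_of_nonneg_left ht.2 hk0.le; linarith [pi_pos])
  obtain ⟨α, hα, hα0, hα1⟩ := exists_weights hm u₀ (hcos t₀ ht₀)
  obtain ⟨β, hβ, hβ0, hβ1⟩ := exists_weights hn w₀ (hsin t₀ ht₀)
  have hx : cbFun hl α β ((completeBipartite m n l hl).pt (u₀, w₀) t₀) = 1 := by
    rw [cbFun_pt hl α β _ ht₀]
    simp only [hα0, hβ0, ← hk]
    linear_combination sin_sq_add_cos_sq (k * t₀)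
  refine ⟨cbFun hl α β, cbFun_eigen hl α β hα hβ ?_, ?_⟩
  · intro h
    rw [h] at hx
    simp at hx
  · intro y
    obtain ⟨⟨u, w⟩, t, ht, rfl⟩ := cb_cover hl hm0 hn0 y
    rw [hx, cbFun_pt hl α β _ ht]
    simp only [← hk]
    have h1 := mul_le_mul_of_nonneg_right (hα1 u) (hcos t ht)
    have h2 := mul_le_mul_of_nonneg_right (hβ1 w) (hsin t ht)
    have h3 := cos_le_one (k * t₀ - k * t)
    rw [cos_sub] at h3
    linarith

lemma cb_hotSpots (hm : 2 ≤ m) (hn : 2 ≤ n) : (completeBipartite m n l hl).hotSpots = univ := by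
  rw [eq_univ_iff_forall]
  intro x
  obtain ⟨ψ, hψ, hmax⟩ := cb_exists_max hl hm hn x
  refine ⟨ψ, ⟨(π / (2 * l)) ^ 2, ⟨⟨by positivity, ψ, hψ⟩, ?_⟩, hψ⟩, Or.inl hmax⟩
  rintro μ ⟨hμ, φ, hφ⟩
  exact cb_lower hl (by omega) (by omega) hμ hφ

lemma deg_cast (G : MetricGraph) (v : G.V) : open Classical in
    (G.deg v : ℝ) = (∑ e with G.src e = v, (1 : ℝ)) + ∑ e with G.tgt e = v, (1 : ℝ) := by
  simp [deg]

lemma cb_deg_inl (u : Fin m) : (completeBipartite m n l hl).deg (Sum.inl u) = n := by
  have h := deg_cast (completeBipartite m n l hl) (Sum.inl u)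
  have h2 := h.trans (congrArg₂ (· + ·) (cb_sum_src (fun _ => (1 : ℝ)) u _)
      (cb_sum_tgt' (fun _ => (1 : ℝ)) u _))
  simpa using h2

lemma cb_deg_inr (w : Fin n) : (completeBipartite m n l hl).deg (Sum.inr w) = m := by
  have h := deg_cast (completeBipartite m n l hl) (Sum.inr w)
  have h2 := h.trans (congrArg₂ (· + ·) (cb_sum_src' (fun _ => (1 : ℝ)) w _)
      (cb_sum_tgt (fun _ => (1 : ℝ)) w _))
  simpa using h2

lemma complete_deg {N : ℕ} {l' : ℝ} (hl' : 0 < l') (v : Fin N) :
    (complete N l' hl').deg v + 1 = N := by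
  have h1 : ∀ i : DecidablePred fun e : {p : Fin N × Fin N // p.1 < p.2} => e.1.1 = v,
      (Finset.univ.filter fun e : {p : Fin N × Fin N // p.1 < p.2} => e.1.1 = v).card =
      (Finset.Ioi v).card := by
    intro i
    refine Finset.card_bij (fun e _ => e.1.2) ?_ ?_ ?_
    · intro e he
      simp only [Finset.mem_filter, Finset.mem_univ, true_and] at he
      simpa [← he] using e.2
    · intro e he e' he' h
      simp only [Finset.mem_filter, Finset.mem_univ, true_and] at he he'
      exact Subtype.ext (Prod.ext (he.trans he'.symm) h)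
    · intro b hb
      exact ⟨⟨(v, b), by simpa using hb⟩, by simp, rfl⟩
  have h2 : ∀ i : DecidablePred fun e : {p : Fin N × Fin N // p.1 < p.2} => e.1.2 = v,
      (Finset.univ.filter fun e : {p : Fin N × Fin N // p.1 < p.2} => e.1.2 = v).card =
      (Finset.Iio v).card := by
    intro i
    refine Finset.card_bij (fun e _ => e.1.1) ?_ ?_ ?_
    · intro e he
      simp only [Finset.mem_filter, Finset.mem_univ, true_and] at he
      simpa [← he] using e.2
    · intro e he e' he' h
      simp only [Finset.mem_filter, Finset.mem_univ, true_and] at he he'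
      exact Subtype.ext (Prod.ext h (he.trans he'.symm))
    · intro b hb
      exact ⟨⟨(b, v), by simpa using hb⟩, by simp, rfl⟩
  rw [Fin.card_Ioi] at h1
  rw [Fin.card_Iio] at h2
  have h3 : (complete N l' hl').deg v = (N - 1 - v) + v := by
    exact congrArg₂ (· + ·) (h1 _) (h2 _)
  have := v.2
  omega

/-- An isometry out of `K_{m,n}` with `m, n ≥ 3` injects the vertices into the vertices. -/
lemma cb_isometric (hm : 3 ≤ m) (hn : 3 ≤ n) {H : MetricGraph}
    (h : (completeBipartite m n l hl).Isometric H) :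
    m + n ≤ Fintype.card H.V ∧ ∃ w : H.V, H.deg w = n := by
  obtain ⟨φ, hφ⟩ := h
  have hdeg : ∀ v : (completeBipartite m n l hl).V, 3 ≤ (completeBipartite m n l hl).deg v := by
    rintro (u | w)
    · rw [cb_deg_inl]; exact hn
    · rw [cb_deg_inr]; exact hm
  choose f hf hf' using fun v => map_vertex hφ v (hdeg v)
  have hinj : Function.Injective f := by
    intro v v' hv
    have : φ (Sum.inl v) = φ (Sum.inl v') := by rw [hf, hf, hv]
    exact Sum.inl_injective (φ.injective this)
  constructor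
  · have := Fintype.card_le_of_injective f hinj
    have h2 : Fintype.card (completeBipartite m n l hl).V = m + n := by
      have : Fintype.card (Fin m ⊕ Fin n) = m + n := by simp
      exact this
    omega
  · exact ⟨f (Sum.inl ⟨0, by omega⟩), by rw [hf', cb_deg_inl]⟩

lemma cb_not_pumpkin (hm : 3 ≤ m) (hn : 3 ≤ n) (k : ℕ) (l' : ℝ) (hl' : 0 < l') :
    ¬ (completeBipartite m n l hl).Isometric (pumpkin k l' hl') := by
  intro h
  have h1 := (cb_isometric hl hm hn h).1
  have h2 : Fintype.card (pumpkin k l' hl').V = 2 := by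
    exact Fintype.card_fin 2
  omega

lemma cb_not_complete (hm : 3 ≤ m) (hn : 3 ≤ n) (N : ℕ) (l' : ℝ) (hl' : 0 < l') :
    ¬ (completeBipartite m n l hl).Isometric (complete N l' hl') := by
  intro h
  obtain ⟨h1, w, hw⟩ := cb_isometric hl hm hn h
  have h2 : Fintype.card (complete N l' hl').V = N := by
    exact Fintype.card_fin N
  have h3 := complete_deg hl' w
  omega

end

end Pool.Agent.Lib.MP_630a53_an
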